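import Pool.Agent.NPC.Classes

/-!
Coalition-exchange-stable matchings in the stable marriage problem: definitions, and the
description of such matchings by rank functions.
-/

set_option autoImplicit false

namespace Pool.Agent.NPC.Q230CE

/-- An instance of the stable marriage problem: the preference lists of the men (entry `a` is the
list of man `a`, best woman first) and the preference lists of the women. -/
abbrev Inst : Type := List (List ℕ) × List (List ℕ)

/-- the number of men -/
def size (I : Inst) : ℕ := I.1.length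

/-- there are as many women as men, and every agent ranks all agents of the opposite sex -/
def IsSM (I : Inst) : Prop :=
  I.2.length = size I ∧ (∀ l ∈ I.1, l.Perm (List.range (size I))) ∧
    ∀ l ∈ I.2, l.Perm (List.range (size I))

/-- an agent with list `l` strictly prefers `y` to `z` -/
def Prefers (l : List ℕ) (y z : ℕ) : Prop := l.idxOf y < l.idxOf z

/-- the partner of man `a` in the matching given by the list `M` of the partners of the men -/
def wife (M : List ℕ) (a : ℕ) : ℕ := M.getD a 0

/-- the partner of woman `w` -/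
def husband (M : List ℕ) (w : ℕ) : ℕ := M.idxOf w

/-- man `a` envies man `b` -/
def ManEnvy (I : Inst) (M : List ℕ) (a b : ℕ) : Prop :=
  Prefers (I.1.getD a []) (wife M b) (wife M a)

/-- woman `v` envies woman `w` -/
def WomanEnvy (I : Inst) (M : List ℕ) (v w : ℕ) : Prop :=
  Prefers (I.2.getD v []) (husband M w) (husband M v)

/-- an exchange-blocking coalition among the agents `0, …, n-1` for the envy relation `r`: at
least two distinct agents, each of which envies the next one, cyclically -/
def Coalition (n : ℕ) (r : ℕ → ℕ → Prop) (c : List ℕ) : Prop :=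
  2 ≤ c.length ∧ c.Nodup ∧ (∀ a ∈ c, a < n) ∧
    ∀ i < c.length, r (c.getD i 0) (c.getD ((i + 1) % c.length) 0)

/-- `M` is a coalition-exchange-stable matching of `I` -/
def CES (I : Inst) (M : List ℕ) : Prop :=
  M.Perm (List.range (size I)) ∧ (¬ ∃ c, Coalition (size I) (ManEnvy I M) c) ∧
    ¬ ∃ c, Coalition (size I) (WomanEnvy I M) c

/-- `R` decreases along `r` -/
def Decr (n : ℕ) (r : ℕ → ℕ → Prop) (R : List ℕ) : Prop :=
  R.length = n ∧ (∀ k ∈ R, k ≤ n) ∧ ∀ a < n, ∀ b < n, r a b → R.getD b 0 < R.getD a 0

theorem walk_of_trans {r : ℕ → ℕ → Prop} {a b : ℕ} (h : Relation.TransGen r a b) :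
    ∃ k, 1 ≤ k ∧ ∃ f : ℕ → ℕ, f 0 = a ∧ f k = b ∧ ∀ i < k, r (f i) (f (i + 1)) := by
  induction h with
  | single h =>
    rename_i b
    refine ⟨1, le_rfl, fun i => if i = 0 then a else b, by simp, by simp, ?_⟩
    intro i hi
    have : i = 0 := by omega
    subst this
    simpa using h
  | @tail b c _ h ih =>
    obtain ⟨k, hk, f, h0, h1, h2⟩ := ih
    refine ⟨k + 1, by omega, fun i => if i ≤ k then f i else c, by simp [h0], by simp, ?_⟩
    intro i hi
    by_cases h3 : i < k
    · have e1 : (if i ≤ k then f i else c) = f i := if_pos (by omega)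
      have e2 : (if i + 1 ≤ k then f (i + 1) else c) = f (i + 1) := if_pos (by omega)
      show r (if i ≤ k then f i else c) (if i + 1 ≤ k then f (i + 1) else c)
      rw [e1, e2]
      exact h2 i h3
    · have h4 : i = k := by omega
      subst h4
      have e1 : (if i ≤ i then f i else c) = f i := if_pos le_rfl
      have e2 : (if i + 1 ≤ i then f (i + 1) else c) = c := if_neg (by omega)
      show r (if i ≤ i then f i else c) (if i + 1 ≤ i then f (i + 1) else c)
      rw [e1, e2, h1]
      exact h

theorem coalition_of_closed {n : ℕ} {r : ℕ → ℕ → Prop} (hirr : ∀ a, ¬ r a a)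
    (k : ℕ) (hk : 1 ≤ k) (f : ℕ → ℕ) (h0 : f k = f 0) (hn : ∀ i, i < k → f i < n)
    (h : ∀ i < k, r (f i) (f (i + 1))) : ∃ c, Coalition n r c := by
  classical
  have hex : ∃ k, 1 ≤ k ∧ ∃ f : ℕ → ℕ, f k = f 0 ∧ (∀ i, i < k → f i < n) ∧
      ∀ i < k, r (f i) (f (i + 1)) := ⟨k, hk, f, h0, hn, h⟩
  obtain ⟨hm1, g, hg0, hgn, hg⟩ := Nat.find_spec hex
  have hmin := fun j (hj : j < Nat.find hex) => Nat.find_min hex hj
  generalize Nat.find hex = m at *
  have hinj : ∀ i j, i < j → j < m → g i ≠ g j := by
    intro i j hij hjm he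
    apply hmin (j - i) (by omega)
    refine ⟨by omega, fun t => g (i + t), ?_, ?_, ?_⟩
    · show g (i + (j - i)) = g (i + 0)
      rw [show i + (j - i) = j by omega, Nat.add_zero, he]
    · intro t ht
      exact hgn _ (by omega)
    · intro t ht
      exact hg (i + t) (by omega)
  have hm2 : 2 ≤ m := by
    by_contra hcon
    have h1 : m = 1 := by omega
    subst h1
    have := hg 0 (by omega)
    rw [Nat.zero_add, hg0] at this
    exact hirr _ this
  have hget : ∀ i, i < m → ((List.range m).map g).getD i 0 = g i := by
    intro i hi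
    rw [List.getD_eq_getElem _ _ (by simpa using hi)]
    simp
  refine ⟨(List.range m).map g, ?_, ?_, ?_, ?_⟩
  · simpa using hm2
  · rw [List.nodup_map_iff_inj_on List.nodup_range]
    intro i hi j hj he
    rw [List.mem_range] at hi hj
    by_contra hne
    rcases Nat.lt_or_gt_of_ne hne with h1 | h1
    · exact hinj i j h1 hj he
    · exact hinj j i h1 hi he.symm
  · intro a ha
    obtain ⟨i, hi, rfl⟩ := List.mem_map.1 ha
    exact hgn i (List.mem_range.1 hi)
  · intro i hi
    rw [List.length_map, List.length_range] at hi ⊢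
    rw [hget i hi, hget _ (Nat.mod_lt _ (by omega))]
    by_cases h1 : i + 1 = m
    · rw [h1, Nat.mod_self, ← hg0, ← h1]
      exact hg i hi
    · rw [Nat.mod_eq_of_lt (by omega)]
      exact hg i hi

/-- absence of coalitions is the existence of a rank function -/
theorem no_coalition_iff {n : ℕ} {r : ℕ → ℕ → Prop} (hirr : ∀ a, ¬ r a a) :
    (¬ ∃ c, Coalition n r c) ↔ ∃ R, Decr n r R := by
  classical
  constructor
  · intro h
    let r' : ℕ → ℕ → Prop := fun a b => a < n ∧ b < n ∧ r a b
    have hac : ∀ a, ¬ Relation.TransGen r' a a := by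
      intro a ha
      obtain ⟨k, hk, f, h0, h1, h2⟩ := walk_of_trans ha
      exact h (coalition_of_closed hirr k hk f (by rw [h1, h0]) (fun i hi => (h2 i hi).1)
        (fun i hi => (h2 i hi).2.2))
    let rk : ℕ → ℕ := fun a => ((Finset.range n).filter (fun b => Relation.TransGen r' a b)).card
    refine ⟨(List.range n).map rk, by simp, ?_, ?_⟩
    · intro k hk
      obtain ⟨a, _, rfl⟩ := List.mem_map.1 hk
      have := Finset.card_filter_le (Finset.range n) (fun b => Relation.TransGen r' a b)
      rwa [Finset.card_range] at this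
    · intro a ha b hb hab
      have hget : ∀ i, i < n → ((List.range n).map rk).getD i 0 = rk i := by
        intro i hi
        rw [List.getD_eq_getElem _ _ (by simpa using hi)]
        simp
      rw [hget a ha, hget b hb]
      apply Finset.card_lt_card
      rw [Finset.ssubset_iff_of_subset]
      · refine ⟨b, ?_, ?_⟩
        · rw [Finset.mem_filter, Finset.mem_range]
          exact ⟨hb, Relation.TransGen.single ⟨ha, hb, hab⟩⟩
        · rw [Finset.mem_filter]
          exact fun h1 => hac b h1.2
      · intro c hc
        rw [Finset.mem_filter] at hc ⊢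
        exact ⟨hc.1, Relation.TransGen.head ⟨ha, hb, hab⟩ hc.2⟩
  · rintro ⟨R, _, _, hR⟩ ⟨c, hc1, _, hc3, hc4⟩
    have hne : (Finset.range c.length).Nonempty := Finset.nonempty_range_iff.2 (by omega)
    obtain ⟨i, hi, hmin⟩ := Finset.exists_min_image (Finset.range c.length)
      (fun i => R.getD (c.getD i 0) 0) hne
    rw [Finset.mem_range] at hi
    have hlt : ∀ j, j < c.length → c.getD j 0 < n := by
      intro j hj
      apply hc3
      rw [List.getD_eq_getElem _ _ hj]
      exact List.getElem_mem _
    have hj : (i + 1) % c.length < c.length := Nat.mod_lt _ (by omega)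
    have h1 := hR _ (hlt i hi) _ (hlt _ hj) (hc4 i hi)
    have h2 := hmin _ (Finset.mem_range.2 hj)
    omega

theorem manEnvy_irr (I : Inst) (M : List ℕ) (a : ℕ) : ¬ ManEnvy I M a a := by
  unfold ManEnvy Prefers; omega

theorem womanEnvy_irr (I : Inst) (M : List ℕ) (a : ℕ) : ¬ WomanEnvy I M a a := by
  unfold WomanEnvy Prefers; omega

/-- description by rank functions -/
theorem ces_iff (I : Inst) (M : List ℕ) : CES I M ↔ M.Perm (List.range (size I)) ∧
    (∃ R, Decr (size I) (ManEnvy I M) R) ∧ ∃ R, Decr (size I) (WomanEnvy I M) R := by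
  unfold CES
  rw [no_coalition_iff (manEnvy_irr I M), no_coalition_iff (womanEnvy_irr I M)]

end Pool.Agent.NPC.Q230CE
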