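import Pool.Agent.Q230.CE.Red
import Pool.Agent.H642R2.TGPoly
import Pool.Agent.H642R2.TGMem

/-!
Running time of the reduction, and membership in NP.
-/

set_option autoImplicit false

namespace Pool.Agent.NPC.Q230CE

open Pool.Agent.NPC.TG (Cl cl ocf poly_ocf poly_mulc poly_addc poly_subc poly_divc poly_modc
  sat_iff cl_mem isPerm isPerm_iff poly_isPerm poly_idxOf)

/-- the reduction -/
def red (φ : List Cl) : Inst := inst φ.length (ocf φ)

theorem var_lt {φ : List Cl} (hb : Bounded3 φ) : ∀ i, i < 3 * φ.length →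
    (ocf φ i).2 < 3 * φ.length := by
  intro i hi
  obtain ⟨h2, h3, h4⟩ := hb _ (cl_mem (φ := φ) (j := i / 3) (by omega))
  unfold ocf
  split_ifs
  · exact h2
  · exact h3
  · exact h4

theorem red_correct {φ : List Cl} (hb : Bounded3 φ) (hne : φ ≠ []) :
    SAT3 φ ↔ ∃ M, CES (red φ) M := by
  rw [sat_iff]
  constructor
  · rintro ⟨τ, hτ⟩
    exact ces_of_sat (List.length_pos_iff.2 hne) hτ
  · rintro ⟨M, hM⟩
    exact sat_of_ces (var_lt hb) hM

section

variable {α : Type} [TEnc α]

theorem poly_nx {i : α → ℕ} (hi : NPC.Poly i) : NPC.Poly (fun a => nx (i a)) :=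
  Poly.add (poly_mulc (poly_divc hi 3) 3) (poly_modc (poly_addc (poly_modc hi 3) 1) 3)

theorem poly_cid {B x : α → ℕ} {φ : α → List Cl} (hB : NPC.Poly B) (hφ : NPC.Poly φ)
    (hx : NPC.Poly x) : NPC.Poly (fun a => cid (B a) (ocf (φ a)) (x a)) :=
  Poly.ite (Poly.decide_lt (poly_modc hx 3) (Poly.const 2))
    (Poly.snd (poly_ocf hφ (poly_divc hx 3))) (Poly.add hB (poly_divc hx 3))

theorem poly_conf {i j : α → ℕ} {φ : α → List Cl} (hφ : NPC.Poly φ) (hi : NPC.Poly i)
    (hj : NPC.Poly j) : NPC.Poly (fun a => decide (conf (ocf (φ a)) (i a) (j a))) := by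
  have h1 := Poly.decide_eq (Poly.snd (poly_ocf hφ hi)) (Poly.snd (poly_ocf hφ hj))
  have h2 := Poly.decide_not (Poly.decide_eq (Poly.fst (poly_ocf hφ hi))
    (Poly.fst (poly_ocf hφ hj)))
  refine (Poly.decide_and h1 h2).congr fun a => ?_
  apply decide_eq_decide.2
  exact Iff.rfl

theorem poly_fM {a w : α → ℕ} (ha : NPC.Poly a) (hw : NPC.Poly w) :
    NPC.Poly (fun x => fM (a x) (w x)) := by
  have hm := poly_modc ha 3
  exact Poly.ite (Poly.decide_eq hm (Poly.const 0))
    (Poly.ite (Poly.decide_eq hw (poly_addc ha 1)) (Poly.const 0)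
      (Poly.ite (Poly.decide_eq hw ha) (Poly.const 2) (Poly.const 3)))
    (Poly.ite (Poly.decide_eq hm (Poly.const 1))
      (Poly.ite (Poly.decide_eq hw ha) (Poly.const 0)
        (Poly.ite (Poly.decide_eq hw (poly_addc ha 1)) (Poly.const 1)
          (Poly.ite (Poly.decide_eq (poly_addc hw 1) ha) (Poly.const 2) (Poly.const 3))))
      (Poly.ite (Poly.decide_eq hw (poly_mulc (poly_nx (poly_divc ha 3)) 3)) (Poly.const 1)
        (Poly.ite (Poly.decide_eq hw ha) (Poly.const 2) (Poly.const 3))))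

theorem poly_fW {B w a : α → ℕ} {φ : α → List Cl} (hB : NPC.Poly B) (hφ : NPC.Poly φ)
    (hw : NPC.Poly w) (ha : NPC.Poly a) :
    NPC.Poly (fun x => fW (B x) (ocf (φ x)) (w x) (a x)) := by
  have hm := poly_modc hw 3
  have hc := Poly.decide_eq (poly_cid hB hφ ha) (poly_cid hB hφ hw)
  exact Poly.ite (Poly.decide_eq hm (Poly.const 0))
    (Poly.ite (Poly.decide_eq ha (poly_addc hw 1)) (Poly.const 0)
      (Poly.ite (Poly.decide_and (Poly.decide_eq (poly_modc ha 3) (Poly.const 0))
          (poly_conf hφ (poly_divc hw 3) (poly_divc ha 3))) (Poly.const 1)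
        (Poly.ite (Poly.decide_eq ha hw) (Poly.const 2)
          (Poly.ite hc (Poly.const 3) (Poly.const 4)))))
    (Poly.ite (Poly.decide_eq hm (Poly.const 1))
      (Poly.ite (Poly.decide_eq ha hw) (Poly.const 0)
        (Poly.ite (Poly.decide_eq (poly_addc ha 1) hw) (Poly.const 2)
          (Poly.ite hc (Poly.const 3) (Poly.const 4))))
      (Poly.ite (Poly.decide_eq ha hw) (Poly.const 0) (Poly.const 4)))

theorem poly_byCls {n : α → ℕ} {f : α → ℕ → ℕ} (hn : UPoly n)
    (hf : NPC.Poly (fun p : α × ℕ => f p.1 p.2)) : NPC.Poly (fun a => byCls (n a) (f a)) := by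
  have key : ∀ c, NPC.Poly (fun a => (List.range (n a)).filter (fun b => decide (f a b = c))) :=
    fun c => Poly.filter (p := fun a b => decide (f a b = c)) hn.range
      (Poly.decide_eq hf (Poly.const c))
  exact Poly.append (key 0) (Poly.append (key 1) (Poly.append (key 2)
    (Poly.append (key 3) (key 4))))

end

theorem upoly_n : UPoly (fun φ : List Cl => 9 * φ.length) :=
  UPoly.mul (UPoly.const 9) (UPoly.length Poly.id)

theorem poly_red : NPC.Poly red := by
  have hf : NPC.Poly (fun p : List Cl × ℕ => p.1) := Poly.fst Poly.id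
  have h1 : NPC.Poly (fun φ : List Cl =>
      (List.range (9 * φ.length)).map (fun a => byCls (9 * φ.length) (fM a))) := by
    refine Poly.map (F := fun (φ : List Cl) a => byCls (9 * φ.length) (fM a)) upoly_n.range ?_
    refine poly_byCls (n := fun p : List Cl × ℕ => 9 * p.1.length)
      (f := fun p w => fM p.2 w) (upoly_n.comp hf) ?_
    exact poly_fM (Poly.snd (Poly.fst Poly.id)) (Poly.snd Poly.id)
  have h2 : NPC.Poly (fun φ : List Cl =>
      (List.range (9 * φ.length)).map
        (fun w => byCls (9 * φ.length) (fW (3 * φ.length) (ocf φ) w))) := by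
    refine Poly.map (F := fun (φ : List Cl) w =>
      byCls (9 * φ.length) (fW (3 * φ.length) (ocf φ) w)) upoly_n.range ?_
    refine poly_byCls (n := fun p : List Cl × ℕ => 9 * p.1.length)
      (f := fun p a => fW (3 * p.1.length) (ocf p.1) p.2 a) (upoly_n.comp hf) ?_
    have g1 : NPC.Poly (fun p : (List Cl × ℕ) × ℕ => p.1.1) := Poly.fst (Poly.fst Poly.id)
    exact poly_fW (poly_mulc (Poly.length g1) 3) g1 (Poly.snd (Poly.fst Poly.id))
      (Poly.snd Poly.id)
  exact Poly.pair h1 h2

/-- hardness -/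
theorem hard : HardPr IsSM (fun I => ∃ M, CES I M) :=
  hardPr_SAT3b.trans poly_red (fun φ _ => isSM_inst _ _)
    (fun _ h => red_correct h.2.1 h.2.2)

/-! ### Membership in NP -/

/-- is `I` an instance -/
def isSM (I : Inst) : Bool :=
  decide (I.2.length = I.1.length) && (I.1.all (fun l => isPerm I.1.length l) &&
    I.2.all (fun l => isPerm I.1.length l))

theorem isSM_iff {I : Inst} : isSM I = true ↔ IsSM I := by
  unfold isSM IsSM size
  simp only [Bool.and_eq_true, decide_eq_true_eq, List.all_eq_true, isPerm_iff]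

/-- are the ranks decreasing along the envy of the men -/
def okM (I : Inst) (M R : List ℕ) : Bool :=
  (List.range I.1.length).all (fun a => (List.range I.1.length).all (fun b =>
    !decide ((I.1.getD a []).idxOf (wife M b) < (I.1.getD a []).idxOf (wife M a)) ||
      decide (R.getD b 0 < R.getD a 0)))

/-- are the ranks decreasing along the envy of the women -/
def okW (I : Inst) (M R : List ℕ) : Bool :=
  (List.range I.1.length).all (fun a => (List.range I.1.length).all (fun b =>
    !decide ((I.2.getD a []).idxOf (husband M b) < (I.2.getD a []).idxOf (husband M a)) ||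
      decide (R.getD b 0 < R.getD a 0)))

/-- the shape of a rank list -/
def isR (n : ℕ) (R : List ℕ) : Bool := decide (R.length = n) && R.all (fun k => decide (k ≤ n))

theorem okM_iff {I : Inst} {M R : List ℕ} :
    (isR I.1.length R && okM I M R) = true ↔ Decr (size I) (ManEnvy I M) R := by
  have aux : ∀ (p : Prop) [Decidable p] (b : Bool), (!decide p || b) = true ↔ (p → b = true) := by
    intro p _ b
    by_cases hp : p <;> simp [hp]
  unfold isR okM Decr ManEnvy Prefers size
  simp only [Bool.and_eq_true, decide_eq_true_eq, List.all_eq_true, List.mem_range, aux, and_assoc]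

theorem okW_iff {I : Inst} {M R : List ℕ} :
    (isR I.1.length R && okW I M R) = true ↔ Decr (size I) (WomanEnvy I M) R := by
  have aux : ∀ (p : Prop) [Decidable p] (b : Bool), (!decide p || b) = true ↔ (p → b = true) := by
    intro p _ b
    by_cases hp : p <;> simp [hp]
  unfold isR okW Decr WomanEnvy Prefers size
  simp only [Bool.and_eq_true, decide_eq_true_eq, List.all_eq_true, List.mem_range, aux, and_assoc]

/-- the verifier -/
def verify (p : Inst × (List ℕ × (List ℕ × List ℕ))) : Bool :=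
  isSM p.1 && (isPerm p.1.1.length p.2.1 && ((isR p.1.1.length p.2.2.1 && okM p.1 p.2.1 p.2.2.1) &&
    (isR p.1.1.length p.2.2.2 && okW p.1 p.2.1 p.2.2.2)))

theorem verify_iff {I : Inst} {M R1 R2 : List ℕ} :
    verify (I, M, R1, R2) = true ↔ IsSM I ∧ M.Perm (List.range (size I)) ∧
      Decr (size I) (ManEnvy I M) R1 ∧ Decr (size I) (WomanEnvy I M) R2 := by
  have h1 := okM_iff (I := I) (M := M) (R := R1)
  have h2 := okW_iff (I := I) (M := M) (R := R2)
  have h3 := isPerm_iff (n := I.1.length) (l := M)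
  have h4 := isSM_iff (I := I)
  unfold verify
  rw [Bool.and_eq_true, Bool.and_eq_true, Bool.and_eq_true, h1, h2, h3, h4]
  exact Iff.rfl

theorem sz_le_of {l : List ℕ} {n : ℕ} (h : ∀ a ∈ l, a ≤ n) (hl : l.length = n) :
    sz l ≤ n * (4 * n + 2) + 1 := by
  have h1 := sz_le_length_mul l (4 * n + 1) (by
    intro a ha
    have b1 := sz_nat_le a
    have c1 := Poly.size_le_self a
    have := h a ha
    omega)
  rw [hl] at h1
  exact h1.trans (le_of_eq (by ring))

theorem has_iff (I : Inst) : (IsSM I ∧ ∃ M, CES I M) ↔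
    ∃ c : List ℕ × (List ℕ × List ℕ), sz c ≤ (Polynomial.C 12 * Polynomial.X * Polynomial.X +
      Polynomial.C 6 * Polynomial.X + Polynomial.C 5).eval (sz I) ∧ verify (I, c) = true := by
  constructor
  · rintro ⟨hI, M, hM⟩
    rw [ces_iff] at hM
    obtain ⟨hp, ⟨R1, hR1⟩, ⟨R2, hR2⟩⟩ := hM
    refine ⟨(M, R1, R2), ?_, verify_iff.2 ⟨hI, hp, hR1, hR2⟩⟩
    have h0 := sz_le_of (l := M) (n := size I) (by
      intro a ha
      rw [hp.mem_iff, List.mem_range] at ha
      omega) (by rw [hp.length_eq, List.length_range])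
    have h1 := sz_le_of hR1.2.1 hR1.1
    have h2 := sz_le_of hR2.2.1 hR2.1
    have e1 : sz (M, R1, R2) = sz M + sz (R1, R2) + 1 := sz_pair M (R1, R2)
    have e2 : sz (R1, R2) = sz R1 + sz R2 + 1 := sz_pair R1 R2
    have h6 : size I ≤ sz I := by
      have e1 := length_lt_sz I.1
      have e2 : sz I = sz I.1 + sz I.2 + 1 := sz_pair I.1 I.2
      have : size I = I.1.length := rfl
      omega
    rw [e1, e2]
    simp only [Polynomial.eval_add, Polynomial.eval_mul, Polynomial.eval_C, Polynomial.eval_X]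
    generalize sz I = s at *
    generalize size I = n at *
    have h7 : n * (4 * n + 2) ≤ s * (4 * s + 2) := Nat.mul_le_mul h6 (by omega)
    have h8 : s * (4 * s + 2) = 4 * (s * s) + 2 * s := by ring
    have h9 : 12 * s * s = 12 * (s * s) := by ring
    omega
  · rintro ⟨⟨M, R1, R2⟩, _, h⟩
    obtain ⟨h1, h2, h3, h4⟩ := verify_iff.1 h
    exact ⟨h1, M, (ces_iff I M).2 ⟨h2, ⟨R1, h3⟩, ⟨R2, h4⟩⟩⟩

section

variable {α : Type} [TEnc α]

theorem poly_isR {n : α → ℕ} {R : α → List ℕ} (hn : UPoly n) (hR : NPC.Poly R) :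
    NPC.Poly (fun a => isR (n a) (R a)) :=
  Poly.and (Poly.decide_eq (Poly.length hR) hn.toPoly)
    (Poly.all (p := fun a k => decide (k ≤ n a)) hR
      (Poly.decide_le (Poly.snd Poly.id) (hn.toPoly.comp (Poly.fst Poly.id))))

theorem poly_isSM {I : α → Inst} (hI : NPC.Poly I) : NPC.Poly (fun a => isSM (I a)) := by
  have hn : UPoly (fun a => (I a).1.length) := UPoly.length (Poly.fst hI)
  refine Poly.and (Poly.decide_eq (Poly.length (Poly.snd hI)) hn.toPoly) (Poly.and ?_ ?_)
  · exact Poly.all (p := fun a l => isPerm (I a).1.length l) (Poly.fst hI)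
      (poly_isPerm (hn.comp (Poly.fst Poly.id)) (Poly.snd Poly.id))
  · exact Poly.all (p := fun a l => isPerm (I a).1.length l) (Poly.snd hI)
      (poly_isPerm (hn.comp (Poly.fst Poly.id)) (Poly.snd Poly.id))

theorem poly_okM {I : α → Inst} {M R : α → List ℕ} (hI : NPC.Poly I) (hM : NPC.Poly M)
    (hR : NPC.Poly R) : NPC.Poly (fun a => okM (I a) (M a) (R a)) := by
  have hn : UPoly (fun a => (I a).1.length) := UPoly.length (Poly.fst hI)
  refine Poly.all (p := fun x a => (List.range (I x).1.length).all (fun b =>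
    !decide (((I x).1.getD a []).idxOf (wife (M x) b) < ((I x).1.getD a []).idxOf (wife (M x) a)) ||
      decide ((R x).getD b 0 < (R x).getD a 0))) hn.range ?_
  refine Poly.all (p := fun (x : α × ℕ) b =>
    !decide (((I x.1).1.getD x.2 []).idxOf (wife (M x.1) b) <
      ((I x.1).1.getD x.2 []).idxOf (wife (M x.1) x.2)) ||
      decide ((R x.1).getD b 0 < (R x.1).getD x.2 0)) (hn.comp (Poly.fst Poly.id)).range ?_
  have f1 : NPC.Poly (fun p : (α × ℕ) × ℕ => p.1.1) := Poly.fst (Poly.fst Poly.id)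
  have fa : NPC.Poly (fun p : (α × ℕ) × ℕ => p.1.2) := Poly.snd (Poly.fst Poly.id)
  have fb : NPC.Poly (fun p : (α × ℕ) × ℕ => p.2) := Poly.snd Poly.id
  have hI' := hI.comp f1
  have hM' := hM.comp f1
  have hR' := hR.comp f1
  have hl : NPC.Poly (fun p : (α × ℕ) × ℕ => (I p.1.1).1.getD p.1.2 []) :=
    Poly.getD (Poly.fst hI') fa (Poly.const _)
  exact Poly.or (Poly.not (Poly.decide_lt (poly_idxOf hl (Poly.getD hM' fb (Poly.const 0)))
    (poly_idxOf hl (Poly.getD hM' fa (Poly.const 0)))))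
    (Poly.decide_lt (Poly.getD hR' fb (Poly.const 0)) (Poly.getD hR' fa (Poly.const 0)))

theorem poly_okW {I : α → Inst} {M R : α → List ℕ} (hI : NPC.Poly I) (hM : NPC.Poly M)
    (hR : NPC.Poly R) : NPC.Poly (fun a => okW (I a) (M a) (R a)) := by
  have hn : UPoly (fun a => (I a).1.length) := UPoly.length (Poly.fst hI)
  refine Poly.all (p := fun x a => (List.range (I x).1.length).all (fun b =>
    !decide (((I x).2.getD a []).idxOf (husband (M x) b) <
      ((I x).2.getD a []).idxOf (husband (M x) a)) ||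
      decide ((R x).getD b 0 < (R x).getD a 0))) hn.range ?_
  refine Poly.all (p := fun (x : α × ℕ) b =>
    !decide (((I x.1).2.getD x.2 []).idxOf (husband (M x.1) b) <
      ((I x.1).2.getD x.2 []).idxOf (husband (M x.1) x.2)) ||
      decide ((R x.1).getD b 0 < (R x.1).getD x.2 0)) (hn.comp (Poly.fst Poly.id)).range ?_
  have f1 : NPC.Poly (fun p : (α × ℕ) × ℕ => p.1.1) := Poly.fst (Poly.fst Poly.id)
  have fa : NPC.Poly (fun p : (α × ℕ) × ℕ => p.1.2) := Poly.snd (Poly.fst Poly.id)
  have fb : NPC.Poly (fun p : (α × ℕ) × ℕ => p.2) := Poly.snd Poly.id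
  have hI' := hI.comp f1
  have hM' := hM.comp f1
  have hR' := hR.comp f1
  have hl : NPC.Poly (fun p : (α × ℕ) × ℕ => (I p.1.1).2.getD p.1.2 []) :=
    Poly.getD (Poly.snd hI') fa (Poly.const _)
  exact Poly.or (Poly.not (Poly.decide_lt (poly_idxOf hl (poly_idxOf hM' fb))
    (poly_idxOf hl (poly_idxOf hM' fa))))
    (Poly.decide_lt (Poly.getD hR' fb (Poly.const 0)) (Poly.getD hR' fa (Poly.const 0)))

end

theorem poly_verify : NPC.Poly verify := by
  have hI : NPC.Poly (fun p : Inst × (List ℕ × (List ℕ × List ℕ)) => p.1) := Poly.fst Poly.id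
  have hM : NPC.Poly (fun p : Inst × (List ℕ × (List ℕ × List ℕ)) => p.2.1) :=
    Poly.fst (Poly.snd Poly.id)
  have h1 : NPC.Poly (fun p : Inst × (List ℕ × (List ℕ × List ℕ)) => p.2.2.1) :=
    Poly.fst (Poly.snd (Poly.snd Poly.id))
  have h2 : NPC.Poly (fun p : Inst × (List ℕ × (List ℕ × List ℕ)) => p.2.2.2) :=
    Poly.snd (Poly.snd (Poly.snd Poly.id))
  have hn : UPoly (fun p : Inst × (List ℕ × (List ℕ × List ℕ)) => p.1.1.length) :=
    UPoly.length (Poly.fst hI)
  exact Poly.and (poly_isSM hI) (Poly.and (poly_isPerm hn hM)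
    (Poly.and (Poly.and (poly_isR hn h1) (poly_okM hI hM h1))
      (Poly.and (poly_isR hn h2) (poly_okW hI hM h2))))

/-- membership in NP -/
theorem mem : InNPP (fun I : Inst => IsSM I ∧ ∃ M, CES I M) :=
  inNPP_of poly_verify _ has_iff

end Pool.Agent.NPC.Q230CE
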