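import Pool.Agent.Q230.CE.Defs

/-!
The reduction: three men and three women for every occurrence of a literal.
-/

set_option autoImplicit false

namespace Pool.Agent.NPC.Q230CE

/-- the next occurrence in the same clause, cyclically -/
def nx (i : ℕ) : ℕ := 3 * (i / 3) + (i % 3 + 1) % 3

/-- the cluster of an agent -/
def cid (B : ℕ) (oc : ℕ → Bool × ℕ) (a : ℕ) : ℕ :=
  if a % 3 < 2 then (oc (a / 3)).2 else B + a / 3

/-- opposite literals -/
def conf (oc : ℕ → Bool × ℕ) (i j : ℕ) : Prop := (oc i).2 = (oc j).2 ∧ (oc i).1 ≠ (oc j).1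

instance (oc : ℕ → Bool × ℕ) (i j : ℕ) : Decidable (conf oc i j) := by unfold conf; infer_instance

/-- how man `a` classifies woman `w` -/
def fM (a w : ℕ) : ℕ :=
  if a % 3 = 0 then (if w = a + 1 then 0 else if w = a then 2 else 3)
  else if a % 3 = 1 then (if w = a then 0 else if w = a + 1 then 1 else if w + 1 = a then 2 else 3)
  else (if w = 3 * nx (a / 3) then 1 else if w = a then 2 else 3)

/-- how woman `w` classifies man `a` -/
def fW (B : ℕ) (oc : ℕ → Bool × ℕ) (w a : ℕ) : ℕ :=
  if w % 3 = 0 then (if a = w + 1 then 0 else if a % 3 = 0 ∧ conf oc (w / 3) (a / 3) then 1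
    else if a = w then 2 else if cid B oc a = cid B oc w then 3 else 4)
  else if w % 3 = 1 then (if a = w then 0 else if a + 1 = w then 2
    else if cid B oc a = cid B oc w then 3 else 4)
  else (if a = w then 0 else 4)

/-- the list of `0, …, n-1` ordered by class -/
def byCls (n : ℕ) (f : ℕ → ℕ) : List ℕ :=
  (List.range n).filter (fun a => decide (f a = 0)) ++
  ((List.range n).filter (fun a => decide (f a = 1)) ++
  ((List.range n).filter (fun a => decide (f a = 2)) ++
  ((List.range n).filter (fun a => decide (f a = 3)) ++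
  (List.range n).filter (fun a => decide (f a = 4)))))

theorem mem_byCls {n : ℕ} {f : ℕ → ℕ} (hf : ∀ a, f a ≤ 4) (a : ℕ) : a ∈ byCls n f ↔ a < n := by
  unfold byCls
  simp only [List.mem_append, List.mem_filter, List.mem_range, decide_eq_true_eq]
  constructor
  · rintro (h | h | h | h | h) <;> exact h.1
  · intro h
    have := hf a
    have h5 : f a = 0 ∨ f a = 1 ∨ f a = 2 ∨ f a = 3 ∨ f a = 4 := by omega
    rcases h5 with h5 | h5 | h5 | h5 | h5
    · exact Or.inl ⟨h, h5⟩
    · exact Or.inr (Or.inl ⟨h, h5⟩)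
    · exact Or.inr (Or.inr (Or.inl ⟨h, h5⟩))
    · exact Or.inr (Or.inr (Or.inr (Or.inl ⟨h, h5⟩)))
    · exact Or.inr (Or.inr (Or.inr (Or.inr ⟨h, h5⟩)))

theorem pw_byCls (n : ℕ) (f : ℕ → ℕ) :
    (byCls n f).Pairwise (fun a b => f a ≤ f b ∧ a ≠ b) := by
  have key : ∀ c, ((List.range n).filter (fun a => decide (f a = c))).Pairwise
      (fun a b => f a ≤ f b ∧ a ≠ b) := by
    intro c
    have h1 : ((List.range n).filter (fun a => decide (f a = c))).Nodup :=
      List.Nodup.filter _ List.nodup_range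
    refine (List.Pairwise.and_mem.1 h1).imp ?_
    rintro a b ⟨ha, hb, hab⟩
    rw [List.mem_filter] at ha hb
    have e1 := of_decide_eq_true ha.2
    have e2 := of_decide_eq_true hb.2
    exact ⟨by omega, hab⟩
  unfold byCls
  simp only [List.pairwise_append, List.mem_append, List.mem_filter, List.mem_range,
    decide_eq_true_eq]
  refine ⟨key 0, ⟨key 1, ⟨key 2, ⟨key 3, key 4, ?_⟩, ?_⟩, ?_⟩, ?_⟩
  · rintro a ⟨_, ha⟩ b ⟨_, hb⟩
    exact ⟨by omega, fun h => by subst h; omega⟩
  · rintro a ⟨_, ha⟩ b (⟨_, hb⟩ | ⟨_, hb⟩) <;> exact ⟨by omega, fun h => by subst h; omega⟩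
  · rintro a ⟨_, ha⟩ b (⟨_, hb⟩ | ⟨_, hb⟩ | ⟨_, hb⟩) <;>
      exact ⟨by omega, fun h => by subst h; omega⟩
  · rintro a ⟨_, ha⟩ b (⟨_, hb⟩ | ⟨_, hb⟩ | ⟨_, hb⟩ | ⟨_, hb⟩) <;>
      exact ⟨by omega, fun h => by subst h; omega⟩

theorem nodup_byCls (n : ℕ) (f : ℕ → ℕ) : (byCls n f).Nodup :=
  (pw_byCls n f).imp (fun h => h.2)

theorem perm_byCls {n : ℕ} {f : ℕ → ℕ} (hf : ∀ a, f a ≤ 4) :
    (byCls n f).Perm (List.range n) := by
  rw [List.perm_ext_iff_of_nodup (nodup_byCls n f) List.nodup_range]
  intro a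
  rw [mem_byCls hf, List.mem_range]

theorem le_of_idx {n : ℕ} {f : ℕ → ℕ} (hf : ∀ a, f a ≤ 4) {a b : ℕ} (ha : a < n) (hb : b < n)
    (h : (byCls n f).idxOf a < (byCls n f).idxOf b) : f a ≤ f b ∧ a ≠ b := by
  have ha' := (mem_byCls hf a).2 ha
  have hb' := (mem_byCls hf b).2 hb
  have h1 := List.idxOf_lt_length_iff.2 ha'
  have h2 := List.idxOf_lt_length_iff.2 hb'
  have h3 := (List.pairwise_iff_getElem.1 (pw_byCls n f)) _ _ h1 h2 h
  rwa [List.getElem_idxOf, List.getElem_idxOf] at h3

theorem idx_of_lt {n : ℕ} {f : ℕ → ℕ} (hf : ∀ a, f a ≤ 4) {a b : ℕ} (ha : a < n) (hb : b < n)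
    (h : f a < f b) : (byCls n f).idxOf a < (byCls n f).idxOf b := by
  by_contra hcon
  rcases Nat.lt_or_ge ((byCls n f).idxOf b) ((byCls n f).idxOf a) with h1 | h1
  · have := (le_of_idx hf hb ha h1).1
    omega
  · have h2 : (byCls n f).idxOf a = (byCls n f).idxOf b := by omega
    have ha' := (mem_byCls hf a).2 ha
    have h3 := List.idxOf_inj ha' |>.1 h2
    rw [h3] at h
    omega

theorem fM_le (a w : ℕ) : fM a w ≤ 4 := by
  unfold fM; split_ifs <;> omega

theorem fW_le (B : ℕ) (oc : ℕ → Bool × ℕ) (w a : ℕ) : fW B oc w a ≤ 4 := by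
  unfold fW; split_ifs <;> omega

/-- the instance -/
def inst (C : ℕ) (oc : ℕ → Bool × ℕ) : Inst :=
  ((List.range (9 * C)).map (fun a => byCls (9 * C) (fM a)),
    (List.range (9 * C)).map (fun w => byCls (9 * C) (fW (3 * C) oc w)))

theorem size_inst (C : ℕ) (oc : ℕ → Bool × ℕ) : size (inst C oc) = 9 * C := by
  unfold size inst
  simp

theorem isSM_inst (C : ℕ) (oc : ℕ → Bool × ℕ) : IsSM (inst C oc) := by
  refine ⟨?_, ?_, ?_⟩
  · rw [size_inst]; unfold inst; simp
  · intro l hl
    rw [size_inst]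
    obtain ⟨a, _, rfl⟩ := List.mem_map.1 hl
    exact perm_byCls (fM_le a)
  · intro l hl
    rw [size_inst]
    obtain ⟨a, _, rfl⟩ := List.mem_map.1 hl
    exact perm_byCls (fW_le _ _ a)

theorem man_list {C : ℕ} {oc : ℕ → Bool × ℕ} {a : ℕ} (ha : a < 9 * C) :
    (inst C oc).1.getD a [] = byCls (9 * C) (fM a) := by
  unfold inst
  rw [List.getD_eq_getElem _ _ (by simpa using ha)]
  simp

theorem woman_list {C : ℕ} {oc : ℕ → Bool × ℕ} {a : ℕ} (ha : a < 9 * C) :
    (inst C oc).2.getD a [] = byCls (9 * C) (fW (3 * C) oc a) := by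
  unfold inst
  rw [List.getD_eq_getElem _ _ (by simpa using ha)]
  simp

/-- A matching in terms of two inverse functions, with rank functions. -/
structure Sol (C : ℕ) (oc : ℕ → Bool × ℕ) (m h r1 r2 : ℕ → ℕ) : Prop where
  var : ∀ i, i < 3 * C → (oc i).2 < 3 * C
  m_lt : ∀ a, a < 9 * C → m a < 9 * C
  h_lt : ∀ a, a < 9 * C → h a < 9 * C
  hm : ∀ a, a < 9 * C → h (m a) = a
  mh : ∀ a, a < 9 * C → m (h a) = a
  men : ∀ a, a < 9 * C → ∀ b, b < 9 * C → fM a (m b) < fM a (m a) → r1 b < r1 a
  women : ∀ a, a < 9 * C → ∀ b, b < 9 * C →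
    fW (3 * C) oc a (h b) < fW (3 * C) oc a (h a) → r2 b < r2 a

theorem cid_conf {B : ℕ} {oc : ℕ → Bool × ℕ} {a w : ℕ} (ha : a % 3 < 2) (hw : w % 3 < 2)
    (h : (oc (w / 3)).2 = (oc (a / 3)).2) : cid B oc a = cid B oc w := by
  unfold cid
  rw [if_pos ha, if_pos hw, h]

theorem fW_same {C : ℕ} {oc : ℕ → Bool × ℕ} (hv : ∀ i, i < 3 * C → (oc i).2 < 3 * C) {w a : ℕ}
    (ha : a < 9 * C) (h : cid (3 * C) oc a = cid (3 * C) oc w) : fW (3 * C) oc w a ≤ 3 := by
  unfold fW
  rw [if_pos h]
  by_cases h2 : w % 3 = 2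
  · have h3 : a = w := by
      unfold cid at h
      rw [if_neg (by omega : ¬ w % 3 < 2)] at h
      by_cases h4 : a % 3 < 2
      · rw [if_pos h4] at h
        have := hv (a / 3) (by omega)
        omega
      · rw [if_neg h4] at h
        omega
    rw [if_neg (by omega), if_neg (by omega), if_pos h3]
    omega
  · split_ifs <;> omega

theorem fW_diff {B : ℕ} {oc : ℕ → Bool × ℕ} {w a : ℕ}
    (h : cid B oc a ≠ cid B oc w) : fW B oc w a = 4 := by
  have h1 : a ≠ w := fun e => h (by rw [e])
  have h2 : w % 3 = 0 → a ≠ w + 1 := by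
    intro h3 h4
    apply h
    apply cid_conf (by omega) (by omega)
    rw [h4, show (w + 1) / 3 = w / 3 by omega]
  have h3 : w % 3 = 0 → ¬ (a % 3 = 0 ∧ conf oc (w / 3) (a / 3)) := by
    rintro h4 ⟨h5, h6⟩
    exact h (cid_conf (by omega) (by omega) h6.1)
  have h4 : w % 3 = 1 → a + 1 ≠ w := by
    intro h3 h4
    apply h
    apply cid_conf (by omega) (by omega)
    rw [← h4, show (a + 1) / 3 = a / 3 by omega]
  unfold fW
  by_cases h5 : w % 3 = 0
  · rw [if_pos h5, if_neg (h2 h5), if_neg (h3 h5), if_neg h1, if_neg h]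
  · rw [if_neg h5]
    by_cases h6 : w % 3 = 1
    · rw [if_pos h6, if_neg h1, if_neg (h4 h6), if_neg h]
    · rw [if_neg h6, if_neg h1]

section sound

variable {C : ℕ} {oc : ℕ → Bool × ℕ} {m h r1 r2 : ℕ → ℕ}

theorem clusters (S : Sol C oc m h r1 r2) : ∀ w, w < 9 * C →
    cid (3 * C) oc (h w) = cid (3 * C) oc w := by
  by_contra hcon
  push Not at hcon
  obtain ⟨w0, hw0, hc0⟩ := hcon
  have hne : ((Finset.range (9 * C)).filter
      (fun w => cid (3 * C) oc (h w) ≠ cid (3 * C) oc w)).Nonempty :=
    ⟨w0, by rw [Finset.mem_filter, Finset.mem_range]; exact ⟨hw0, hc0⟩⟩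
  obtain ⟨w, hw, hmin⟩ := Finset.exists_min_image _ r2 hne
  rw [Finset.mem_filter, Finset.mem_range] at hw
  obtain ⟨hw, hc⟩ := hw
  -- a man of the cluster with an outside partner
  have hex : ∃ a, a < 9 * C ∧ cid (3 * C) oc a = cid (3 * C) oc w ∧
      cid (3 * C) oc (m a) ≠ cid (3 * C) oc w := by
    by_contra hno
    push Not at hno
    let A := (Finset.range (9 * C)).filter (fun a => cid (3 * C) oc a = cid (3 * C) oc w)
    have hmaps : ∀ a ∈ A, m a ∈ A := by
      intro a ha
      rw [Finset.mem_filter, Finset.mem_range] at ha ⊢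
      exact ⟨S.m_lt a ha.1, hno a ha.1 ha.2⟩
    have hinj : Set.InjOn m (A : Set ℕ) := by
      intro a ha b hb hab
      have ha' := (Finset.mem_filter.1 (Finset.mem_coe.1 ha)).1
      have hb' := (Finset.mem_filter.1 (Finset.mem_coe.1 hb)).1
      rw [Finset.mem_range] at ha' hb'
      rw [← S.hm a ha', ← S.hm b hb', hab]
    have himg : A.image m = A := by
      apply Finset.eq_of_subset_of_card_le
      · intro x hx
        obtain ⟨a, ha, rfl⟩ := Finset.mem_image.1 hx
        exact hmaps a ha
      · rw [Finset.card_image_of_injOn hinj]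
    have hwA : w ∈ A := by
      rw [Finset.mem_filter, Finset.mem_range]; exact ⟨hw, rfl⟩
    rw [← himg] at hwA
    obtain ⟨a, ha, haw⟩ := Finset.mem_image.1 hwA
    rw [Finset.mem_filter, Finset.mem_range] at ha
    have : h w = a := by rw [← haw, S.hm a ha.1]
    apply hc
    rw [this]
    exact ha.2
  obtain ⟨a, ha, h1, h2⟩ := hex
  have hma := S.m_lt a ha
  have hD : m a ∈ (Finset.range (9 * C)).filter
      (fun w => cid (3 * C) oc (h w) ≠ cid (3 * C) oc w) := by
    rw [Finset.mem_filter, Finset.mem_range, S.hm a ha]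
    exact ⟨hma, fun h3 => h2 (by rw [← h3]; exact h1)⟩
  have h3 := hmin _ hD
  have h4 := S.women w hw (m a) hma (by
    rw [S.hm a ha]
    have := fW_same S.var ha h1
    have := fW_diff hc
    omega)
  omega

theorem cid_m (S : Sol C oc m h r1 r2) (a : ℕ) (ha : a < 9 * C) :
    cid (3 * C) oc (m a) = cid (3 * C) oc a := by
  have := clusters S (m a) (S.m_lt a ha)
  rw [S.hm a ha] at this
  exact this.symm

theorem mod_of_cid (hv : ∀ i, i < 3 * C → (oc i).2 < 3 * C) {a b : ℕ} (ha : a < 9 * C)
    (hb : b < 9 * C) (h : cid (3 * C) oc a = cid (3 * C) oc b) :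
    (a % 3 < 2 ∧ b % 3 < 2) ∨ a = b := by
  unfold cid at h
  by_cases h1 : a % 3 < 2 <;> by_cases h2 : b % 3 < 2
  · exact Or.inl ⟨h1, h2⟩
  · rw [if_pos h1, if_neg h2] at h
    have := hv (a / 3) (by omega)
    omega
  · rw [if_neg h1, if_pos h2] at h
    have := hv (b / 3) (by omega)
    omega
  · rw [if_neg h1, if_neg h2] at h
    right
    omega

theorem gadgets (S : Sol C oc m h r1 r2) : ∀ a, a < 9 * C → m a / 3 = a / 3 := by
  by_contra hcon
  push Not at hcon
  obtain ⟨a0, ha0, hc0⟩ := hcon
  have hne : ((Finset.range (9 * C)).filter (fun a => m a / 3 ≠ a / 3)).Nonempty :=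
    ⟨a0, by rw [Finset.mem_filter, Finset.mem_range]; exact ⟨ha0, hc0⟩⟩
  obtain ⟨a, ha, hmin⟩ := Finset.exists_min_image _ r1 hne
  rw [Finset.mem_filter, Finset.mem_range] at ha
  obtain ⟨ha, hc⟩ := ha
  have hma := S.m_lt a ha
  rcases mod_of_cid S.var hma ha (cid_m S a ha) with ⟨h1, h2⟩ | h1
  swap
  · rw [h1] at hc; exact hc rfl
  have hex : ∃ w, w < 9 * C ∧ w / 3 = a / 3 ∧ w % 3 < 2 ∧ h w / 3 ≠ a / 3 := by
    by_contra hno
    push Not at hno
    have e0 := hno (3 * (a / 3)) (by omega) (by omega) (by omega)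
    have e1 := hno (3 * (a / 3) + 1) (by omega) (by omega) (by omega)
    have l0 : 3 * (a / 3) < 9 * C := by omega
    have l1 : 3 * (a / 3) + 1 < 9 * C := by omega
    have c0 := mod_of_cid S.var (S.h_lt _ l0) l0 (clusters S _ l0)
    have c1 := mod_of_cid S.var (S.h_lt _ l1) l1 (clusters S _ l1)
    have hne : h (3 * (a / 3)) ≠ h (3 * (a / 3) + 1) := by
      intro e
      have := congrArg m e
      rw [S.mh _ l0, S.mh _ l1] at this
      omega
    have hor : h (3 * (a / 3)) = a ∨ h (3 * (a / 3) + 1) = a := by omega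
    rcases hor with e | e
    · apply hc
      rw [← e, S.mh _ l0, e]
      omega
    · apply hc
      rw [← e, S.mh _ l1, e]
      omega
  obtain ⟨w, hw, w1, w2, w3⟩ := hex
  have hD : h w ∈ (Finset.range (9 * C)).filter (fun a => m a / 3 ≠ a / 3) := by
    rw [Finset.mem_filter, Finset.mem_range, S.mh w hw]
    exact ⟨S.h_lt w hw, fun e => w3 (by omega)⟩
  have h3 := hmin _ hD
  have h4 := S.men a ha (h w) (S.h_lt w hw) (by
    rw [S.mh w hw]
    have e1 : fM a w ≤ 2 := by
      unfold fM
      split_ifs <;> omega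
    have e2 : fM a (m a) = 3 := by
      unfold fM
      split_ifs <;> omega
    omega)
  omega

theorem sound (S : Sol C oc m h r1 r2) : ∃ τ : ℕ → Bool, ∀ d < C, ∃ k < 3,
    τ (oc (3 * d + k)).2 = (oc (3 * d + k)).1 := by
  classical
  have hpq : ∀ i, i < 3 * C → (m (3 * i) = 3 * i ∧ m (3 * i + 1) = 3 * i + 1) ∨
      (m (3 * i) = 3 * i + 1 ∧ m (3 * i + 1) = 3 * i) := by
    intro i hi
    have l0 : 3 * i < 9 * C := by omega
    have l1 : 3 * i + 1 < 9 * C := by omega
    have g0 := gadgets S _ l0
    have g1 := gadgets S _ l1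
    have c0 := mod_of_cid S.var (S.m_lt _ l0) l0 (cid_m S _ l0)
    have c1 := mod_of_cid S.var (S.m_lt _ l1) l1 (cid_m S _ l1)
    have hne : m (3 * i) ≠ m (3 * i + 1) := by
      intro e
      have := congrArg h e
      rw [S.hm _ l0, S.hm _ l1] at this
      omega
    omega
  have he : ∀ i, i < 3 * C → m (3 * i + 2) = 3 * i + 2 := by
    intro i hi
    have l0 : 3 * i + 2 < 9 * C := by omega
    rcases mod_of_cid S.var (S.m_lt _ l0) l0 (cid_m S _ l0) with h1 | h1
    · omega
    · exact h1
  have hconf : ∀ i, i < 3 * C → ∀ j, j < 3 * C → conf oc i j → m (3 * i) = 3 * i →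
      m (3 * j) = 3 * j → r2 (3 * j) < r2 (3 * i) := by
    intro i hi j hj hij h1 h2
    have l0 : 3 * i < 9 * C := by omega
    have l1 : 3 * j < 9 * C := by omega
    have e1 : h (3 * i) = 3 * i := by have := S.hm _ l0; rwa [h1] at this
    have e2 : h (3 * j) = 3 * j := by have := S.hm _ l1; rwa [h2] at this
    apply S.women _ l0 _ l1
    rw [e1, e2]
    have hij' : conf oc (3 * i / 3) (3 * j / 3) := by
      rw [Nat.mul_div_cancel_left _ (by norm_num), Nat.mul_div_cancel_left _ (by norm_num)]
      exact hij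
    have hne : ¬ conf oc (3 * i / 3) (3 * i / 3) := fun h => h.2 rfl
    have f1 : fW (3 * C) oc (3 * i) (3 * j) = 1 := by
      unfold fW
      rw [if_pos (by omega), if_neg (by omega), if_pos ⟨by omega, hij'⟩]
    have f2 : fW (3 * C) oc (3 * i) (3 * i) = 2 := by
      unfold fW
      rw [if_pos (by omega), if_neg (by omega), if_neg (fun h => hne h.2), if_pos rfl]
    omega
  refine ⟨fun v => decide (∃ i, i < 3 * C ∧ (oc i).2 = v ∧ (oc i).1 = true ∧ m (3 * i) = 3 * i), ?_⟩
  intro d hd
  -- some occurrence of the clause is selected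
  have hsel : ∃ k, k < 3 ∧ m (3 * (3 * d + k)) = 3 * (3 * d + k) := by
    by_contra hno
    push Not at hno
    have hq : ∀ k, k < 3 → m (3 * (3 * d + k) + 1) = 3 * (3 * d + k) := by
      intro k hk
      rcases hpq (3 * d + k) (by omega) with h1 | h1
      · exact (hno k hk h1.1).elim
      · exact h1.2
    have s1 : ∀ k, k < 3 → r1 (3 * (3 * d + k) + 2) < r1 (3 * (3 * d + k) + 1) := by
      intro k hk
      apply S.men _ (by omega) _ (by omega)
      rw [he _ (by omega), hq k hk]
      have f1 : fM (3 * (3 * d + k) + 1) (3 * (3 * d + k) + 2) = 1 := by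
        unfold fM
        rw [if_neg (by omega), if_pos (by omega), if_neg (by omega), if_pos (by omega)]
      have f2 : fM (3 * (3 * d + k) + 1) (3 * (3 * d + k)) = 2 := by
        unfold fM
        rw [if_neg (by omega), if_pos (by omega), if_neg (by omega), if_neg (by omega),
          if_pos (by omega)]
      omega
    have s2 : ∀ k, k < 3 → ∀ l, l < 3 → nx (3 * d + k) = 3 * d + l →
        r1 (3 * (3 * d + l) + 1) < r1 (3 * (3 * d + k) + 2) := by
      intro k hk l hl hkl
      apply S.men _ (by omega) _ (by omega)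
      rw [he _ (by omega), hq l hl]
      have hdiv : (3 * (3 * d + k) + 2) / 3 = 3 * d + k := by omega
      have hkne : 3 * (3 * d + k) + 2 ≠ 3 * (3 * d + l) := by omega
      have f1 : fM (3 * (3 * d + k) + 2) (3 * (3 * d + l)) = 1 := by
        unfold fM
        rw [if_neg (by omega), if_neg (by omega), hdiv, hkl, if_pos rfl]
      have f2 : fM (3 * (3 * d + k) + 2) (3 * (3 * d + k) + 2) = 2 := by
        unfold fM
        rw [if_neg (by omega), if_neg (by omega), hdiv, hkl, if_neg hkne, if_pos rfl]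
      omega
    have n0 : nx (3 * d + 0) = 3 * d + 1 := by unfold nx; omega
    have n1 : nx (3 * d + 1) = 3 * d + 2 := by unfold nx; omega
    have n2 : nx (3 * d + 2) = 3 * d + 0 := by unfold nx; omega
    have a1 := s1 0 (by omega)
    have a2 := s1 1 (by omega)
    have a3 := s1 2 (by omega)
    have b1 := s2 0 (by omega) 1 (by omega) n0
    have b2 := s2 1 (by omega) 2 (by omega) n1
    have b3 := s2 2 (by omega) 0 (by omega) n2
    omega
  obtain ⟨k, hk, hmk⟩ := hsel
  refine ⟨k, hk, ?_⟩
  cases hs : (oc (3 * d + k)).1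
  · rw [decide_eq_false_iff_not]
    rintro ⟨i, hi, h1, h2, h3⟩
    have hc : conf oc i (3 * d + k) := ⟨h1, by rw [h2, hs]; decide⟩
    have hc' : conf oc (3 * d + k) i := ⟨h1.symm, by rw [h2, hs]; decide⟩
    have e1 := hconf i hi (3 * d + k) (by omega) hc h3 hmk
    have e2 := hconf (3 * d + k) (by omega) i hi hc' hmk h3
    omega
  · rw [decide_eq_true_eq]
    exact ⟨3 * d + k, by omega, rfl, hs, hmk⟩

end sound

theorem perm_facts {n : ℕ} {M : List ℕ} (hM : M.Perm (List.range n)) :
    (∀ a, a < n → wife M a < n) ∧ (∀ a, a < n → husband M a < n) ∧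
    (∀ a, a < n → husband M (wife M a) = a) ∧ (∀ a, a < n → wife M (husband M a) = a) := by
  have hlen : M.length = n := by rw [hM.length_eq, List.length_range]
  have hnd : M.Nodup := hM.nodup_iff.2 List.nodup_range
  have hmem : ∀ a, a ∈ M ↔ a < n := fun a => by rw [hM.mem_iff, List.mem_range]
  have hw : ∀ a, (ha : a < n) → wife M a = M[a]'(by omega) := by
    intro a ha
    unfold wife
    rw [List.getD_eq_getElem _ _ (by omega)]
  refine ⟨?_, ?_, ?_, ?_⟩
  · intro a ha
    rw [← hmem, hw a ha]
    exact List.getElem_mem _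
  · intro a ha
    unfold husband
    rw [← hlen]
    exact List.idxOf_lt_length_iff.2 ((hmem a).2 ha)
  · intro a ha
    rw [hw a ha]
    unfold husband
    exact hnd.idxOf_getElem _ _
  · intro a ha
    have h1 : M.idxOf a < M.length := List.idxOf_lt_length_iff.2 ((hmem a).2 ha)
    unfold wife husband
    rw [List.getD_eq_getElem _ _ h1, List.getElem_idxOf]

theorem sat_of_ces {C : ℕ} {oc : ℕ → Bool × ℕ} (hv : ∀ i, i < 3 * C → (oc i).2 < 3 * C)
    {M : List ℕ} (hM : CES (inst C oc) M) : ∃ τ : ℕ → Bool, ∀ d < C, ∃ k < 3,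
    τ (oc (3 * d + k)).2 = (oc (3 * d + k)).1 := by
  rw [ces_iff, size_inst] at hM
  obtain ⟨hp, ⟨R1, _, _, h1⟩, ⟨R2, _, _, h2⟩⟩ := hM
  obtain ⟨p1, p2, p3, p4⟩ := perm_facts hp
  refine sound (m := wife M) (h := husband M) (r1 := fun a => R1.getD a 0)
    (r2 := fun a => R2.getD a 0) ⟨hv, p1, p2, p3, p4, ?_, ?_⟩
  · intro a ha b hb hab
    apply h1 a ha b hb
    unfold ManEnvy Prefers
    rw [man_list ha]
    exact idx_of_lt (fM_le a) (p1 b hb) (p1 a ha) hab
  · intro a ha b hb hab
    apply h2 a ha b hb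
    unfold WomanEnvy Prefers
    rw [woman_list ha]
    exact idx_of_lt (fW_le _ _ a) (p2 b hb) (p2 a ha) hab

section complete

/-- the matching of an assignment; `s i` tells whether occurrence `i` is satisfied -/
def mm (s : ℕ → Bool) (a : ℕ) : ℕ :=
  if a % 3 = 2 ∨ s (a / 3) = true then a else if a % 3 = 0 then a + 1 else a - 1

/-- distance to the next satisfied occurrence -/
def dl (s : ℕ → Bool) (i : ℕ) : ℕ := if s i = true then 0 else if s (nx i) = true then 1 else 2

/-- ranks of the men -/
def rm (s : ℕ → Bool) (a : ℕ) : ℕ :=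
  if a % 3 = 2 then 2 * dl s (nx (a / 3)) + 2
  else if a % 3 = 0 then (if s (a / 3) = true then 1 else 0)
  else (if s (a / 3) = true then 0 else 2 * dl s (a / 3) + 1)

/-- ranks of the women -/
def rw' (s : ℕ → Bool) (a : ℕ) : ℕ :=
  if a % 3 = 2 then 0
  else if a % 3 = 0 then (if s (a / 3) = true then 2 else 0)
  else (if s (a / 3) = true then 0 else 1)

theorem mm_mm (s : ℕ → Bool) (a : ℕ) : mm s (mm s a) = a := by
  unfold mm
  by_cases h1 : a % 3 = 2 ∨ s (a / 3) = true
  · rw [if_pos h1, if_pos h1]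
  · rw [if_neg h1]
    push Not at h1
    by_cases h2 : a % 3 = 0
    · rw [if_pos h2, show (a + 1) / 3 = a / 3 by omega, if_neg (by
        push Not; exact ⟨by omega, h1.2⟩), if_neg (by omega)]
      omega
    · rw [if_neg h2, show (a - 1) / 3 = a / 3 by omega, if_neg (by
        push Not; exact ⟨by omega, h1.2⟩), if_pos (by omega)]
      omega

theorem mm_lt {C : ℕ} (s : ℕ → Bool) {a : ℕ} (h : a < 9 * C) : mm s a < 9 * C := by
  unfold mm
  split_ifs <;> omega

theorem mm_sat {s : ℕ → Bool} {a : ℕ} (h : s (a / 3) = true) : mm s a = a := by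
  unfold mm; rw [if_pos (Or.inr h)]

theorem mm_two {s : ℕ → Bool} {a : ℕ} (h : a % 3 = 2) : mm s a = a := by
  unfold mm; rw [if_pos (Or.inl h)]

theorem mm_zero {s : ℕ → Bool} {a : ℕ} (h : a % 3 = 0) (hs : ¬ s (a / 3) = true) :
    mm s a = a + 1 := by
  unfold mm
  rw [if_neg (by push Not; exact ⟨by omega, hs⟩), if_pos h]

theorem mm_one {s : ℕ → Bool} {a : ℕ} (h : a % 3 = 1) (hs : ¬ s (a / 3) = true) :
    mm s a = a - 1 := by
  unfold mm
  rw [if_neg (by push Not; exact ⟨by omega, hs⟩), if_neg (by omega)]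

theorem rm_le (s : ℕ → Bool) (a : ℕ) : rm s a ≤ 6 := by
  unfold rm dl
  split_ifs <;> omega

theorem rw_le (s : ℕ → Bool) (a : ℕ) : rw' s a ≤ 2 := by
  unfold rw'
  split_ifs <;> omega

theorem men_ok {C : ℕ} (s : ℕ → Bool)
    (hs : ∀ d < C, ∃ k < 3, s (3 * d + k) = true) {a b : ℕ} (ha : a < 9 * C)
    (h1 : fM a (mm s b) ≤ fM a (mm s a)) (h2 : mm s b ≠ mm s a) : rm s b < rm s a := by
  have hb : b = mm s (mm s b) := (mm_mm s b).symm
  generalize mm s b = x at *
  have hm : a % 3 = 0 ∨ a % 3 = 1 ∨ a % 3 = 2 := by omega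
  rcases hm with hm | hm | hm
  · by_cases hsa : s (a / 3) = true
    · rw [mm_sat hsa] at h1 h2
      have e1 : fM a a = 2 := by
        unfold fM; rw [if_pos hm, if_neg (by omega), if_pos rfl]
      have e2 : x = a + 1 := by
        rw [e1] at h1
        unfold fM at h1
        rw [if_pos hm] at h1
        by_contra h3
        rw [if_neg h3, if_neg h2] at h1
        omega
      have e3 : b = a + 1 := by
        rw [hb, e2]
        exact mm_sat (by rw [show (a + 1) / 3 = a / 3 by omega]; exact hsa)
      rw [e3]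
      unfold rm
      rw [show (a + 1) / 3 = a / 3 by omega, if_neg (by omega), if_neg (by omega), if_pos hsa,
        if_neg (by omega), if_pos hm, if_pos hsa]
      omega
    · rw [mm_zero hm hsa] at h1 h2
      exfalso
      have e1 : fM a (a + 1) = 0 := by
        unfold fM; rw [if_pos hm, if_pos rfl]
      rw [e1] at h1
      unfold fM at h1
      rw [if_pos hm] at h1
      split_ifs at h1 with h3 h4 <;> omega
  · by_cases hsa : s (a / 3) = true
    · rw [mm_sat hsa] at h1 h2
      exfalso
      have e1 : fM a a = 0 := by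
        unfold fM; rw [if_neg (by omega), if_pos hm, if_pos rfl]
      rw [e1] at h1
      unfold fM at h1
      rw [if_neg (by omega), if_pos hm] at h1
      split_ifs at h1 with h3 h4 <;> omega
    · rw [mm_one hm hsa] at h1 h2
      have e1 : fM a (a - 1) = 2 := by
        unfold fM
        rw [if_neg (by omega), if_pos hm, if_neg (by omega), if_neg (by omega), if_pos (by omega)]
      rw [e1] at h1
      have hx : x = a ∨ x = a + 1 := by
        unfold fM at h1
        rw [if_neg (by omega), if_pos hm] at h1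
        split_ifs at h1 with h3 h4 h5
        · exact Or.inl h3
        · exact Or.inr h4
        · omega
        · omega
      have hra : rm s a = 2 * dl s (a / 3) + 1 := by
        unfold rm
        rw [if_neg (by omega), if_neg (by omega), if_neg hsa]
      rcases hx with hx | hx
      · have e3 : b = a - 1 := by rw [hb, hx]; exact mm_one hm hsa
        rw [hra, e3]
        unfold rm
        rw [show (a - 1) / 3 = a / 3 by omega, if_neg (by omega), if_pos (by omega), if_neg hsa]
        omega
      · have e3 : b = a + 1 := by rw [hb, hx]; exact mm_two (by omega)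
        rw [hra, e3]
        have hrb : rm s (a + 1) = 2 * dl s (nx (a / 3)) + 2 := by
          unfold rm
          rw [show (a + 1) / 3 = a / 3 by omega, if_pos (by omega)]
        rw [hrb]
        have hdl : dl s (nx (a / 3)) < dl s (a / 3) := by
          have e4 : dl s (a / 3) = if s (nx (a / 3)) = true then 1 else 2 := by
            unfold dl; rw [if_neg hsa]
          by_cases h5 : s (nx (a / 3)) = true
          · rw [e4, if_pos h5]
            unfold dl
            rw [if_pos h5]
            omega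
          · rw [e4, if_neg h5]
            unfold dl
            rw [if_neg h5]
            -- the third occurrence is satisfied
            obtain ⟨k, hk, hk2⟩ := hs (a / 3 / 3) (by omega)
            have h6 : s (nx (nx (a / 3))) = true := by
              generalize hi : a / 3 = i at *
              have h7 : i % 3 = 0 ∨ i % 3 = 1 ∨ i % 3 = 2 := by omega
              have h8 : k = 0 ∨ k = 1 ∨ k = 2 := by omega
              have hnx : nx i = 3 * (i / 3) + (i % 3 + 1) % 3 := rfl
              have hnx2 : nx (nx i) = 3 * (i / 3) + (i % 3 + 2) % 3 := by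
                unfold nx; omega
              have h9 : 3 * (i / 3) + k = nx (nx i) := by
                by_contra h10
                have h11 : 3 * (i / 3) + k = i ∨ 3 * (i / 3) + k = nx i := by omega
                rcases h11 with h11 | h11
                · rw [h11] at hk2; exact hsa hk2
                · rw [h11] at hk2; exact h5 hk2
              rw [← h9]; exact hk2
            rw [if_pos h6]
            omega
        omega
  · rw [mm_two hm] at h1 h2
    have e1 : fM a a ≤ 2 := by
      unfold fM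
      rw [if_neg (by omega), if_neg (by omega)]
      split_ifs <;> omega
    have hx : x = 3 * nx (a / 3) := by
      have h3 : fM a x ≤ 2 := by omega
      unfold fM at h3
      rw [if_neg (by omega), if_neg (by omega)] at h3
      by_contra h4
      rw [if_neg h4, if_neg h2] at h3
      omega
    have hra : rm s a = 2 * dl s (nx (a / 3)) + 2 := by
      unfold rm
      rw [if_pos hm]
    rw [hra]
    by_cases h5 : s (nx (a / 3)) = true
    · have e3 : b = 3 * nx (a / 3) := by
        rw [hb, hx]
        exact mm_sat (by rw [Nat.mul_div_cancel_left _ (by norm_num)]; exact h5)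
      rw [e3]
      unfold rm
      rw [if_neg (by omega), if_pos (by omega), Nat.mul_div_cancel_left _ (by norm_num), if_pos h5]
      omega
    · have e3 : b = 3 * nx (a / 3) + 1 := by
        rw [hb, hx]
        exact mm_zero (by omega) (by rw [Nat.mul_div_cancel_left _ (by norm_num)]; exact h5)
      rw [e3]
      have e4 : (3 * nx (a / 3) + 1) / 3 = nx (a / 3) := by omega
      unfold rm
      rw [if_neg (by omega), if_neg (by omega), e4, if_neg h5]
      omega

theorem women_ok {B : ℕ} {oc : ℕ → Bool × ℕ} (s : ℕ → Bool)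
    (hs : ∀ i j, conf oc i j → s i = true → s j = true → False) {w v : ℕ}
    (h1 : fW B oc w (mm s v) ≤ fW B oc w (mm s w)) (h2 : mm s v ≠ mm s w) :
    rw' s v < rw' s w := by
  have hb : v = mm s (mm s v) := (mm_mm s v).symm
  generalize mm s v = x at *
  have hm : w % 3 = 0 ∨ w % 3 = 1 ∨ w % 3 = 2 := by omega
  have hcc : ∀ i, ¬ conf oc i i := fun i h => h.2 rfl
  rcases hm with hm | hm | hm
  · by_cases hsa : s (w / 3) = true
    · rw [mm_sat hsa] at h1 h2
      have e1 : fW B oc w w = 2 := by
        unfold fW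
        rw [if_pos hm, if_neg (by omega), if_neg (fun h => hcc _ h.2), if_pos rfl]
      rw [e1] at h1
      have hrw : rw' s w = 2 := by
        unfold rw'
        rw [if_neg (by omega), if_pos hm, if_pos hsa]
      rw [hrw]
      unfold fW at h1
      rw [if_pos hm] at h1
      split_ifs at h1 with h3 h4 h5
      · have e3 : v = w + 1 := by
          rw [hb, h3]
          exact mm_sat (by rw [show (w + 1) / 3 = w / 3 by omega]; exact hsa)
        rw [e3]
        unfold rw'
        rw [if_neg (by omega), if_neg (by omega), show (w + 1) / 3 = w / 3 by omega, if_pos hsa]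
        omega
      · have h6 : ¬ s (x / 3) = true := fun h => hs _ _ h4.2 hsa h
        have e3 : v = x + 1 := by rw [hb]; exact mm_zero h4.1 h6
        rw [e3]
        unfold rw'
        rw [if_neg (by omega), if_neg (by omega), show (x + 1) / 3 = x / 3 by omega, if_neg h6]
        omega
      all_goals omega
    · rw [mm_zero hm hsa] at h1 h2
      exfalso
      have e1 : fW B oc w (w + 1) = 0 := by
        unfold fW; rw [if_pos hm, if_pos rfl]
      rw [e1] at h1
      unfold fW at h1
      rw [if_pos hm] at h1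
      split_ifs at h1 with h3 <;> omega
  · by_cases hsa : s (w / 3) = true
    · rw [mm_sat hsa] at h1 h2
      exfalso
      have e1 : fW B oc w w = 0 := by
        unfold fW; rw [if_neg (by omega), if_pos hm, if_pos rfl]
      rw [e1] at h1
      unfold fW at h1
      rw [if_neg (by omega), if_pos hm] at h1
      split_ifs at h1 with h3 <;> omega
    · rw [mm_one hm hsa] at h1 h2
      have e1 : fW B oc w (w - 1) = 2 := by
        unfold fW
        rw [if_neg (by omega), if_pos hm, if_neg (by omega), if_pos (by omega)]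
      rw [e1] at h1
      have hx : x = w := by
        unfold fW at h1
        rw [if_neg (by omega), if_pos hm] at h1
        split_ifs at h1 with h3 h4 h5 <;> omega
      have e3 : v = w - 1 := by rw [hb, hx]; exact mm_one hm hsa
      rw [e3]
      unfold rw'
      rw [show (w - 1) / 3 = w / 3 by omega, if_neg (by omega), if_pos (by omega), if_neg hsa,
        if_neg (by omega), if_neg (by omega), if_neg hsa]
      omega
  · rw [mm_two hm] at h1 h2
    exfalso
    have e1 : fW B oc w w = 0 := by
      unfold fW; rw [if_neg (by omega), if_neg (by omega), if_pos rfl]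
    rw [e1] at h1
    unfold fW at h1
    rw [if_neg (by omega), if_neg (by omega)] at h1
    split_ifs at h1 with h3 <;> omega

theorem map_facts {n : ℕ} {g : ℕ → ℕ} (hlt : ∀ a, a < n → g a < n) (hgg : ∀ a, g (g a) = a) :
    ((List.range n).map g).Perm (List.range n) ∧
    (∀ a, a < n → wife ((List.range n).map g) a = g a) ∧
    (∀ a, a < n → husband ((List.range n).map g) a = g a) := by
  have hinj : Function.Injective g := fun a b h => by rw [← hgg a, ← hgg b, h]
  have hnd : ((List.range n).map g).Nodup := List.Nodup.map hinj List.nodup_range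
  have hp : ((List.range n).map g).Perm (List.range n) := by
    rw [List.perm_ext_iff_of_nodup hnd List.nodup_range]
    intro a
    rw [List.mem_map, List.mem_range]
    constructor
    · rintro ⟨b, hb, rfl⟩
      exact hlt b (List.mem_range.1 hb)
    · intro ha
      exact ⟨g a, List.mem_range.2 (hlt a ha), hgg a⟩
  have hw : ∀ a, a < n → wife ((List.range n).map g) a = g a := by
    intro a ha
    unfold wife
    rw [List.getD_eq_getElem _ _ (by simpa using ha)]
    simp
  refine ⟨hp, hw, ?_⟩
  intro a ha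
  obtain ⟨_, _, p3, _⟩ := perm_facts hp
  have := p3 (g a) (hlt a ha)
  rw [hw _ (hlt a ha), hgg] at this
  exact this

theorem ces_of_sat {C : ℕ} {oc : ℕ → Bool × ℕ} (hC : 0 < C) {τ : ℕ → Bool}
    (hτ : ∀ d < C, ∃ k < 3, τ (oc (3 * d + k)).2 = (oc (3 * d + k)).1) :
    ∃ M, CES (inst C oc) M := by
  let s : ℕ → Bool := fun i => decide (τ (oc i).2 = (oc i).1)
  have hs1 : ∀ d < C, ∃ k < 3, s (3 * d + k) = true := by
    intro d hd
    obtain ⟨k, hk, h⟩ := hτ d hd
    exact ⟨k, hk, decide_eq_true h⟩
  have hs2 : ∀ i j, conf oc i j → s i = true → s j = true → False := by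
    intro i j hij h1 h2
    have e1 := of_decide_eq_true h1
    have e2 := of_decide_eq_true h2
    apply hij.2
    rw [← e1, ← e2, hij.1]
  obtain ⟨hp, hw, hh⟩ := map_facts (n := 9 * C) (g := mm s) (fun a ha => mm_lt s ha) (mm_mm s)
  refine ⟨(List.range (9 * C)).map (mm s), ?_⟩
  rw [ces_iff, size_inst]
  refine ⟨hp, ⟨(List.range (9 * C)).map (rm s), by simp, ?_, ?_⟩,
    ⟨(List.range (9 * C)).map (rw' s), by simp, ?_, ?_⟩⟩
  · intro k hk
    obtain ⟨a, _, rfl⟩ := List.mem_map.1 hk
    have := rm_le s a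
    omega
  · intro a ha b hb hab
    have hget : ∀ i, i < 9 * C → ((List.range (9 * C)).map (rm s)).getD i 0 = rm s i := by
      intro i hi
      rw [List.getD_eq_getElem _ _ (by simpa using hi)]
      simp
    rw [hget a ha, hget b hb]
    unfold ManEnvy Prefers at hab
    rw [man_list ha, hw a ha, hw b hb] at hab
    have := le_of_idx (fM_le a) (mm_lt s hb) (mm_lt s ha) hab
    exact men_ok s hs1 ha this.1 this.2
  · intro k hk
    obtain ⟨a, _, rfl⟩ := List.mem_map.1 hk
    have := rw_le s a
    omega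
  · intro a ha b hb hab
    have hget : ∀ i, i < 9 * C → ((List.range (9 * C)).map (rw' s)).getD i 0 = rw' s i := by
      intro i hi
      rw [List.getD_eq_getElem _ _ (by simpa using hi)]
      simp
    rw [hget a ha, hget b hb]
    unfold WomanEnvy Prefers at hab
    rw [woman_list ha, hh a ha, hh b hb] at hab
    have := le_of_idx (fW_le _ _ a) (mm_lt s hb) (mm_lt s ha) hab
    exact women_ok s hs2 this.1 this.2

end complete

end Pool.Agent.NPC.Q230CE
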